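import Pool.Agent.H81.PHL.Pos
import Pool.Agent.H46.EXC.Stmts
import Pool.Agent.H45.SHA.LOW

/-!
# PHX: the exceptional triples of Theorem X give all failures of Philippon's inequality
-/

set_option autoImplicit false

namespace Pool.Agent.H21.PHX

open Pool.Agent.H81.PHL (rad lhs_eq log_rad rad_pos rad_dvd dvd_rad num_den_add_one)

/-- the height `max (|num r|, den r)` -/
noncomputable def H (r : ℚ) : ℝ := max |((r.num : ℤ) : ℝ)| ((r.den : ℕ) : ℝ)

/-- the primes of the numerator of `x y ^ B + 1` -/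
def S (B : ℕ) (x y : ℚ) : Finset ℕ := (x * y ^ B + 1).num.natAbs.primeFactors

/-- Philippon's inequality at one pair, `h = log H` -/
def Phil (B : ℕ) (α β ε : ℝ) (x y : ℚ) : Prop :=
  -(∑ p ∈ S B x y, Real.log ((padicNorm p (x * y ^ B + 1) : ℚ) : ℝ)) ≤
    α * B * Real.log (H x) + ε * B * Real.log (H y) +
      B * (α * B + ε) * (β + ∑ p ∈ S B x y, Real.log (p : ℝ))

/-- the pairs of nonzero rationals `(x, y)`, `x y ^ B ≠ 1, -1`, with
`H x ^ 2 H y ^ 2 ∏_{p ∈ S} p ≤ X` -/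
def Pairs (B : ℕ) (X : ℝ) : Set (ℚ × ℚ) :=
  {w | w.1 ≠ 0 ∧ w.2 ≠ 0 ∧ w.1 * w.2 ^ B ≠ 1 ∧ w.1 * w.2 ^ B ≠ -1 ∧
    H w.1 ^ 2 * H w.2 ^ 2 * ((∏ p ∈ S B w.1 w.2, p : ℕ) : ℝ) ≤ X}

/-- few failures -/
def S_PHX : Prop := ∀ α ε δ : ℝ, 0 < α → 0 < ε → 0 < δ → ∃ B₀ : ℕ, ∀ B : ℕ, B₀ ≤ B →
  ∃ C : ℝ, ∀ X : ℝ, 1 ≤ X → (Pairs B X).Finite ∧ X ^ (2 / 3 : ℝ) / 32 - 1 ≤ (Pairs B X).ncard ∧
    ({w ∈ Pairs B X | ¬ Phil B α 0 ε w.1 w.2}.ncard : ℝ) ≤ C * X ^ (1 / 3 + δ)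

/-! ## heights -/

lemma one_le_H (r : ℚ) : 1 ≤ H r := by
  have h : (1 : ℝ) ≤ ((r.den : ℕ) : ℝ) := by exact_mod_cast r.den_pos
  exact h.trans (le_max_right _ _)

lemma natAbs_le_H (r : ℚ) : (r.num.natAbs : ℝ) ≤ H r := by
  have : |((r.num : ℤ) : ℝ)| = (r.num.natAbs : ℝ) := by
    rw [Nat.cast_natAbs]; push_cast; rfl
  rw [← this]; exact le_max_left _ _

lemma den_le_H (r : ℚ) : ((r.den : ℕ) : ℝ) ≤ H r := le_max_right _ _

lemma H_le {r : ℚ} {T : ℝ} (h1 : (r.num.natAbs : ℝ) ≤ T) (h2 : ((r.den : ℕ) : ℝ) ≤ T) : H r ≤ T := by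
  have : |((r.num : ℤ) : ℝ)| = (r.num.natAbs : ℝ) := by
    rw [Nat.cast_natAbs]; push_cast; rfl
  exact max_le (by rw [this]; exact h1) h2

lemma H_pow (r : ℚ) (B : ℕ) : H (r ^ B) = H r ^ B := by
  unfold H
  rw [Rat.num_pow, Rat.den_pow]
  push_cast
  rw [abs_pow]
  have h1 : (0 : ℝ) ≤ |(r.num : ℝ)| := abs_nonneg _
  have h2 : (0 : ℝ) ≤ (r.den : ℝ) := Nat.cast_nonneg _
  rcases le_total |(r.num : ℝ)| (r.den : ℝ) with h | h
  · rw [max_eq_right h, max_eq_right (pow_le_pow_left₀ h1 h B)]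
  · rw [max_eq_left h, max_eq_left (pow_le_pow_left₀ h2 h B)]

/-- `H (r / s) ≤ H r H s` -/
lemma H_div {r s : ℚ} (hr : r ≠ 0) (hs : s ≠ 0) : H (r / s) ≤ H r * H s := by
  have hsn : s.num ≠ 0 := Rat.num_ne_zero.2 hs
  have hrn : r.num ≠ 0 := Rat.num_ne_zero.2 hr
  have hb : r.den * s.num ≠ 0 := mul_ne_zero (by exact_mod_cast r.den_ne_zero) hsn
  have e : r / s = Rat.divInt (r.num * s.den) (r.den * s.num) := by
    rw [Rat.div_def', Rat.divInt_eq_div]
  have h1 : (r / s).num ∣ r.num * s.den := by rw [e]; exact Rat.num_dvd _ hb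
  have h2 : (((r / s).den : ℕ) : ℤ) ∣ r.den * s.num := by rw [e]; exact Rat.den_dvd _ _
  have h3 : (r / s).num.natAbs ≤ r.num.natAbs * s.den := by
    have := Int.natAbs_dvd_natAbs.2 h1
    rw [Int.natAbs_mul, Int.natAbs_natCast] at this
    exact Nat.le_of_dvd (Nat.mul_pos (Int.natAbs_pos.2 hrn) s.den_pos) this
  have h4 : (r / s).den ≤ r.den * s.num.natAbs := by
    have := Int.natAbs_dvd_natAbs.2 h2
    rw [Int.natAbs_mul, Int.natAbs_natCast, Int.natAbs_natCast] at this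
    exact Nat.le_of_dvd (Nat.mul_pos r.den_pos (Int.natAbs_pos.2 hsn)) this
  have hr0 : 0 ≤ H r := (Nat.cast_nonneg _).trans (den_le_H r)
  apply H_le
  · calc ((r / s).num.natAbs : ℝ) ≤ ((r.num.natAbs * s.den : ℕ) : ℝ) := by exact_mod_cast h3
      _ = (r.num.natAbs : ℝ) * (s.den : ℝ) := by push_cast; ring
      _ ≤ H r * H s := mul_le_mul (natAbs_le_H r) (den_le_H s) (Nat.cast_nonneg _) hr0
  · calc (((r / s).den : ℕ) : ℝ) ≤ ((r.den * s.num.natAbs : ℕ) : ℝ) := by exact_mod_cast h4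
      _ = (r.den : ℝ) * (s.num.natAbs : ℝ) := by push_cast; ring
      _ ≤ H r * H s := mul_le_mul (den_le_H r) (natAbs_le_H s) (Nat.cast_nonneg _) hr0

/-- there are at most `3 T ^ 2` rationals of height at most `T` -/
lemma card_H {T : ℝ} (hT : 1 ≤ T) :
    {r : ℚ | H r ≤ T}.Finite ∧ ({r : ℚ | H r ≤ T}.ncard : ℝ) ≤ 3 * T ^ 2 := by
  classical
  set N := ⌊T⌋₊ with hN
  have hN1 : 1 ≤ N := Nat.le_floor (by exact_mod_cast hT)
  have hNT : (N : ℝ) ≤ T := Nat.floor_le (by linarith)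
  set F : Finset (ℤ × ℕ) := Finset.Icc (-(N : ℤ)) N ×ˢ Finset.Icc 1 N with hF
  have hsub : {r : ℚ | H r ≤ T} ⊆ ((F.image fun t : ℤ × ℕ => (t.1 : ℚ) / t.2 : Finset ℚ) : Set ℚ) := by
    intro r hr
    have h1 : (r.num.natAbs : ℝ) ≤ T := (natAbs_le_H r).trans hr
    have h2 : (r.den : ℝ) ≤ T := (den_le_H r).trans hr
    have h3 : r.num.natAbs ≤ N := Nat.le_floor h1
    have h4 : r.den ≤ N := Nat.le_floor h2
    rw [Finset.mem_coe, Finset.mem_image]
    refine ⟨(r.num, r.den), ?_, Rat.num_div_den r⟩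
    rw [hF, Finset.mem_product, Finset.mem_Icc, Finset.mem_Icc]
    have h5 : |r.num| ≤ (N : ℤ) := by
      rw [← Int.natCast_natAbs]; exact_mod_cast h3
    exact ⟨⟨(abs_le.1 h5).1, (abs_le.1 h5).2⟩, r.den_pos, h4⟩
  refine ⟨(Finset.finite_toSet _).subset hsub, ?_⟩
  have h1 := Set.ncard_le_ncard hsub (Finset.finite_toSet _)
  rw [Set.ncard_coe_finset] at h1
  have h2 : F.card = (2 * N + 1) * N := by
    rw [hF, Finset.card_product, Int.card_Icc, Nat.card_Icc, Nat.add_sub_cancel]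
    congr 1
    omega
  calc ({r : ℚ | H r ≤ T}.ncard : ℝ) ≤ ((F.image fun t : ℤ × ℕ => (t.1 : ℚ) / t.2).card : ℝ) := by
        exact_mod_cast h1
    _ ≤ (F.card : ℝ) := by exact_mod_cast Finset.card_image_le
    _ = (2 * N + 1) * N := by rw [h2]; push_cast; ring
    _ ≤ 3 * T ^ 2 := by
      have hN1' : (1 : ℝ) ≤ N := by exact_mod_cast hN1
      nlinarith

/-! ## the triple -/

/-- the triple attached to `z`, and `z` from the triple -/
lemma triple (z : ℚ) (hz : z ≠ 0) (hw : z + 1 ≠ 0) :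
    ∃ t : ℕ × ℕ, 0 < t.1 ∧ 0 < t.2 ∧ Nat.Coprime t.1 t.2 ∧
      t.1 * t.2 * (t.1 + t.2) = (z + 1).num.natAbs * z.num.natAbs * z.den ∧
      (z + 1).num.natAbs ≤ t.1 + t.2 ∧
      (z = (t.1 : ℚ) / t.2 ∨ z = -(((t.1 + t.2 : ℕ) : ℚ) / t.2) ∨
        z = -((t.2 : ℚ) / ((t.1 + t.2 : ℕ) : ℚ))) := by
  obtain ⟨hnum, hden⟩ := num_den_add_one z
  set n := (z + 1).num.natAbs with hn
  have hn0 : 0 < n := Int.natAbs_pos.2 (Rat.num_ne_zero.2 hw)
  set a := z.num.natAbs with ha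
  have ha0 : 0 < a := Int.natAbs_pos.2 (Rat.num_ne_zero.2 hz)
  set d := z.den with hd
  have hd0 : 0 < d := z.den_pos
  have hcad : Nat.Coprime a d := z.reduced
  have hcnd : Nat.Coprime n d := by
    have := (z + 1).reduced
    rw [hden] at this
    exact this
  have hca : (a : ℤ) = |z.num| := by rw [ha]; exact Int.natCast_natAbs _
  have hcn : (n : ℤ) = |(z + 1).num| := by rw [hn]; exact Int.natCast_natAbs _
  have hzz : z = (z.num : ℚ) / (d : ℚ) := (Rat.num_div_den z).symm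
  rcases lt_or_gt_of_ne (Rat.num_ne_zero.2 hz) with hneg | hpos
  · have hza : z = -((a : ℚ) / d) := by
      have h1 : z.num = -(a : ℤ) := by rw [hca, abs_of_neg hneg]; ring
      rw [h1] at hzz
      rw [hzz]; push_cast; ring
    rcases lt_or_gt_of_ne (Rat.num_ne_zero.2 hw) with hneg' | hpos'
    · have hsum : n + d = a := by
        have : (n : ℤ) + d = a := by
          rw [hca, hcn, abs_of_neg hneg, abs_of_neg hneg', hnum]; ring
        exact_mod_cast this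
      refine ⟨(n, d), hn0, hd0, hcnd, ?_, ?_, Or.inr (Or.inl ?_)⟩
      · show n * d * (n + d) = n * a * d
        rw [hsum]
        ring
      · show n ≤ n + d
        omega
      · show z = -(((n + d : ℕ) : ℚ) / d)
        rw [hsum]; exact hza
    · have hsum : n + a = d := by
        have : (n : ℤ) + a = d := by
          rw [hca, hcn, abs_of_neg hneg, abs_of_pos hpos', hnum]; ring
        exact_mod_cast this
      have hcna : Nat.Coprime n a := by
        have h1 : Nat.Coprime n d := hcnd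
        rw [← hsum] at h1
        simpa using h1
      refine ⟨(n, a), hn0, ha0, hcna, ?_, ?_, Or.inr (Or.inr ?_)⟩
      · show n * a * (n + a) = n * a * d
        rw [hsum]
      · show n ≤ n + a
        omega
      · show z = -((a : ℚ) / ((n + a : ℕ) : ℚ))
        rw [hsum]; exact hza
  · have hza : z = (a : ℚ) / d := by
      have h1 : z.num = (a : ℤ) := by rw [hca, abs_of_pos hpos]
      rw [h1] at hzz
      rw [hzz]; push_cast; ring
    have hpos' : 0 < (z + 1).num := by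
      rw [hnum]; positivity
    have hsum : a + d = n := by
      have : (a : ℤ) + d = n := by
        rw [hca, hcn, abs_of_pos hpos, abs_of_pos hpos', hnum]
      exact_mod_cast this
    refine ⟨(a, d), ha0, hd0, hcad, ?_, ?_, Or.inl hza⟩
    · show a * d * (a + d) = n * a * d
      rw [hsum]
      ring
    · show n ≤ a + d
      omega

/-- the radical of the triple -/
lemma rad_triple {x y : ℚ} (hx : x ≠ 0) (hy : y ≠ 0) (B : ℕ) (hw : x * y ^ B + 1 ≠ 0) :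
    ((rad ((x * y ^ B + 1).num.natAbs * (x * y ^ B).num.natAbs * (x * y ^ B).den) : ℕ) : ℝ) ≤
      H x ^ 2 * H y ^ 2 * (rad (x * y ^ B + 1).num.natAbs : ℝ) := by
  set z := x * y ^ B with hz
  set n := (z + 1).num.natAbs with hn
  have hn0 : 0 < n := Int.natAbs_pos.2 (Rat.num_ne_zero.2 hw)
  have hzn : z.num.natAbs ∣ x.num.natAbs * y.num.natAbs ^ B := by
    have h1 : z.num ∣ x.num * (y ^ B).num := by
      have := Rat.mul_num x (y ^ B)
      rw [hz, this]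
      exact Int.ediv_dvd_of_dvd (Int.natCast_dvd.2 (Nat.gcd_dvd_left ..))
    rw [Rat.num_pow] at h1
    have h2 := Int.natAbs_dvd_natAbs.2 h1
    rwa [Int.natAbs_mul, Int.natAbs_pow] at h2
  have hzd : z.den ∣ x.den * y.den ^ B := by
    have h1 : z.den ∣ x.den * (y ^ B).den := by
      have := Rat.mul_den x (y ^ B)
      rw [hz, this]
      exact Nat.div_dvd_of_dvd (Nat.gcd_dvd_right ..)
    rwa [Rat.den_pow] at h1
  have hdvd : rad (n * z.num.natAbs * z.den) ∣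
      rad n * ((x.num.natAbs * y.num.natAbs) * (x.den * y.den)) := by
    apply rad_dvd
    intro p hp hpd
    rcases (Nat.Prime.dvd_mul hp).1 hpd with h1 | h1
    · rcases (Nat.Prime.dvd_mul hp).1 h1 with h2 | h2
      · exact Dvd.dvd.mul_right (dvd_rad hn0.ne' hp h2) _
      · apply Dvd.dvd.mul_left
        apply Dvd.dvd.mul_right
        rcases (Nat.Prime.dvd_mul hp).1 (h2.trans hzn) with h3 | h3
        · exact Dvd.dvd.mul_right h3 _
        · exact Dvd.dvd.mul_left (hp.dvd_of_dvd_pow h3) _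
    · apply Dvd.dvd.mul_left
      apply Dvd.dvd.mul_left
      rcases (Nat.Prime.dvd_mul hp).1 (h1.trans hzd) with h3 | h3
      · exact Dvd.dvd.mul_right h3 _
      · exact Dvd.dvd.mul_left (hp.dvd_of_dvd_pow h3) _
  have hxn0 : 0 < x.num.natAbs := Int.natAbs_pos.2 (Rat.num_ne_zero.2 hx)
  have hyn0 : 0 < y.num.natAbs := Int.natAbs_pos.2 (Rat.num_ne_zero.2 hy)
  have h1 : rad (n * z.num.natAbs * z.den) ≤
      rad n * ((x.num.natAbs * y.num.natAbs) * (x.den * y.den)) := by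
    apply Nat.le_of_dvd _ hdvd
    have := rad_pos n
    have h3 := x.den_pos
    have h4 := y.den_pos
    positivity
  have hH1 : 0 ≤ H x := zero_le_one.trans (one_le_H x)
  have hH2 : 0 ≤ H y := zero_le_one.trans (one_le_H y)
  have hr0 : (0 : ℝ) ≤ (rad n : ℝ) := Nat.cast_nonneg _
  have p1 : (x.num.natAbs : ℝ) * (y.num.natAbs : ℝ) ≤ H x * H y :=
    mul_le_mul (natAbs_le_H x) (natAbs_le_H y) (Nat.cast_nonneg _) hH1
  have p2 : (x.den : ℝ) * (y.den : ℝ) ≤ H x * H y :=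
    mul_le_mul (den_le_H x) (den_le_H y) (Nat.cast_nonneg _) hH1
  calc ((rad (n * z.num.natAbs * z.den) : ℕ) : ℝ)
      ≤ ((rad n * ((x.num.natAbs * y.num.natAbs) * (x.den * y.den)) : ℕ) : ℝ) := by
        exact_mod_cast h1
    _ = (((x.num.natAbs : ℝ) * (y.num.natAbs : ℝ)) * ((x.den : ℝ) * (y.den : ℝ))) *
        (rad n : ℝ) := by push_cast; ring
    _ ≤ ((H x * H y) * (H x * H y)) * (rad n : ℝ) := by
        refine mul_le_mul_of_nonneg_right ?_ hr0
        exact mul_le_mul p1 p2 (by positivity) (by positivity)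
    _ = _ := by ring

/-- a failure of the inequality gives an exceptional triple -/
lemma fail_exc {κ α ε : ℝ} (hκ : 0 ≤ κ) {B : ℕ} (hB1 : 1 ≤ B) (hα : 2 * κ ≤ α * B)
    (hε : 2 * κ ≤ ε * B) (hε0 : 0 < ε) {X : ℝ} {w : ℚ × ℚ} (hw : w ∈ Pairs B X)
    (hf : ¬ Phil B α 0 ε w.1 w.2) :
    ∃ t ∈ Pool.VIO.Exc κ X, (w.1 * w.2 ^ B = (t.1 : ℚ) / t.2 ∨
      w.1 * w.2 ^ B = -(((t.1 + t.2 : ℕ) : ℚ) / t.2) ∨
        w.1 * w.2 ^ B = -((t.2 : ℚ) / ((t.1 + t.2 : ℕ) : ℚ))) := by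
  obtain ⟨x, y⟩ := w
  obtain ⟨hx, hy, hz1, hz2, hsize⟩ := hw
  simp only at hx hy hz1 hz2 hsize hf ⊢
  have hw0 : x * y ^ B + 1 ≠ 0 := by
    intro hcontra; apply hz2; linarith
  have hradle := rad_triple hx hy B hw0
  unfold Phil S at hf
  unfold S at hsize
  rw [lhs_eq _ hw0, ← log_rad, zero_add] at hf
  change H x ^ 2 * H y ^ 2 * ((rad (x * y ^ B + 1).num.natAbs : ℕ) : ℝ) ≤ X at hsize
  set z := x * y ^ B with hz
  have hz0 : z ≠ 0 := mul_ne_zero hx (pow_ne_zero _ hy)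
  obtain ⟨t, ht1, ht2, htc, hprod, hle, hzt⟩ := triple z hz0 hw0
  set n := (z + 1).num.natAbs with hn
  have hn0 : 0 < n := Int.natAbs_pos.2 (Rat.num_ne_zero.2 hw0)
  have hrad : (∏ p ∈ (t.1 * t.2 * (t.1 + t.2)).primeFactors, p) =
      rad (n * z.num.natAbs * z.den) := by rw [hprod]; rfl
  refine ⟨t, ⟨⟨ht1, ht2, htc, ?_⟩, ?_⟩, hzt⟩
  · rw [hrad]; exact hradle.trans hsize
  rw [hrad]
  by_contra hcon
  push Not at hcon
  apply hf
  set R := rad (n * z.num.natAbs * z.den) with hR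
  have hR1 : (1 : ℝ) ≤ (R : ℝ) := by exact_mod_cast rad_pos _
  have hn1 : (1 : ℝ) ≤ (n : ℝ) := by exact_mod_cast hn0
  have hrn1 : (1 : ℝ) ≤ (rad n : ℝ) := by exact_mod_cast rad_pos n
  have hB1' : (1 : ℝ) ≤ (B : ℝ) := by exact_mod_cast hB1
  have h1 : Real.log (n : ℝ) ≤ κ * Real.log (R : ℝ) := by
    rw [← Real.log_rpow (by linarith)]
    apply Real.log_le_log (by linarith)
    refine le_trans ?_ hcon
    exact_mod_cast hle
  have hHx : 0 ≤ Real.log (H x) := Real.log_nonneg (one_le_H x)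
  have hHy : 0 ≤ Real.log (H y) := Real.log_nonneg (one_le_H y)
  have hHx0 : H x ≠ 0 := (lt_of_lt_of_le zero_lt_one (one_le_H x)).ne'
  have hHy0 : H y ≠ 0 := (lt_of_lt_of_le zero_lt_one (one_le_H y)).ne'
  have h2 : Real.log (R : ℝ) ≤ 2 * Real.log (H x) + 2 * Real.log (H y) + Real.log (rad n : ℝ) := by
    have := Real.log_le_log (by linarith) hradle
    rw [Real.log_mul (by positivity) (by linarith), Real.log_mul (by positivity) (by positivity),
      Real.log_pow, Real.log_pow] at this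
    exact_mod_cast this
  have hlr : 0 ≤ Real.log (rad n : ℝ) := Real.log_nonneg hrn1
  have h3 : κ * Real.log (R : ℝ) ≤
      κ * (2 * Real.log (H x) + 2 * Real.log (H y) + Real.log (rad n : ℝ)) :=
    mul_le_mul_of_nonneg_left h2 hκ
  have h4 : 2 * κ * Real.log (H x) ≤ α * B * Real.log (H x) := mul_le_mul_of_nonneg_right hα hHx
  have h5 : 2 * κ * Real.log (H y) ≤ ε * B * Real.log (H y) := mul_le_mul_of_nonneg_right hε hHy
  have h6 : κ ≤ B * (α * B + ε) := by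
    have : 2 * κ ≤ α * B + ε := by linarith
    nlinarith
  have h7 : κ * Real.log (rad n : ℝ) ≤ B * (α * B + ε) * Real.log (rad n : ℝ) :=
    mul_le_mul_of_nonneg_right h6 hlr
  linarith

/-! ## counting -/

lemma one_le_prod (B : ℕ) (x y : ℚ) : (1 : ℝ) ≤ ((∏ p ∈ S B x y, p : ℕ) : ℝ) := by
  have : 0 < ∏ p ∈ S B x y, p :=
    Finset.prod_pos fun p hp => (Nat.prime_of_mem_primeFactors hp).pos
  exact_mod_cast this

lemma pairs_H {B : ℕ} {X : ℝ} {w : ℚ × ℚ} (hw : w ∈ Pairs B X) :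
    H w.1 ≤ X ^ (1 / 2 : ℝ) ∧ H w.2 ≤ X ^ (1 / 2 : ℝ) := by
  obtain ⟨_, _, _, _, hs⟩ := hw
  have h1 := one_le_H w.1
  have h2 := one_le_H w.2
  have h3 := one_le_prod B w.1 w.2
  have e1 : 1 ≤ H w.1 ^ 2 := by nlinarith
  have e2 : 1 ≤ H w.2 ^ 2 := by nlinarith
  have e3 : H w.1 ^ 2 * H w.2 ^ 2 ≤ X := by
    refine le_trans ?_ hs
    exact le_mul_of_one_le_right (by positivity) h3
  have f1 : H w.1 ^ 2 ≤ X := le_trans (le_mul_of_one_le_right (by positivity) e2) e3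
  have f2 : H w.2 ^ 2 ≤ X := le_trans (le_mul_of_one_le_left (by positivity) e1) e3
  rw [← Real.sqrt_eq_rpow]
  exact ⟨Real.le_sqrt_of_sq_le f1, Real.le_sqrt_of_sq_le f2⟩

lemma pairs_finite (B : ℕ) {X : ℝ} (hX : 1 ≤ X) : (Pairs B X).Finite := by
  have h1 : 1 ≤ X ^ (1 / 2 : ℝ) := Real.one_le_rpow hX (by norm_num)
  refine ((card_H h1).1.prod (card_H h1).1).subset ?_
  intro w hw
  exact ⟨(pairs_H hw).1, (pairs_H hw).2⟩

/-- few pairs with given `x y ^ B` -/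
lemma fibre {B : ℕ} (hB : 1 ≤ B) {X : ℝ} (hX : 1 ≤ X) (z : ℚ) :
    ({w ∈ Pairs B X | w.1 * w.2 ^ B = z}.ncard : ℝ) ≤ 3 * X ^ (2 / B : ℝ) := by
  have hB0 : (0 : ℝ) < B := by exact_mod_cast hB
  have hT : 1 ≤ X ^ ((B : ℝ)⁻¹) := Real.one_le_rpow hX (by positivity)
  rcases Set.eq_empty_or_nonempty {w ∈ Pairs B X | w.1 * w.2 ^ B = z} with h | ⟨w0, hw0, hz0⟩
  · rw [h, Set.ncard_empty]
    push_cast
    positivity
  have hx0 := hw0.1
  have hy0 := hw0.2.1
  have hzne : z ≠ 0 := by rw [← hz0]; exact mul_ne_zero hx0 (pow_ne_zero _ hy0)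
  have hmaps : ∀ w ∈ {w ∈ Pairs B X | w.1 * w.2 ^ B = z}, w.2 / w0.2 ∈
      {r : ℚ | H r ≤ X ^ ((B : ℝ)⁻¹)} := by
    rintro w ⟨hw, hwz⟩
    have hx := hw.1
    have hy := hw.2.1
    have e : (w.2 / w0.2) ^ B = w0.1 / w.1 := by
      rw [div_pow, div_eq_div_iff (pow_ne_zero _ hy0) hx, mul_comm (w.2 ^ B), hwz, ← hz0]
    have h1 : H (w.2 / w0.2) ^ B ≤ X := by
      rw [← H_pow, e]
      calc H (w0.1 / w.1) ≤ H w0.1 * H w.1 := H_div hx0 hx
        _ ≤ X ^ (1 / 2 : ℝ) * X ^ (1 / 2 : ℝ) :=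
          mul_le_mul (pairs_H hw0).1 (pairs_H hw).1 (zero_le_one.trans (one_le_H _)) (by positivity)
        _ = X := by
          rw [← Real.rpow_add (by linarith)]; norm_num
    have h2 : 0 ≤ H (w.2 / w0.2) := zero_le_one.trans (one_le_H _)
    show H (w.2 / w0.2) ≤ X ^ ((B : ℝ)⁻¹)
    calc H (w.2 / w0.2) = (H (w.2 / w0.2) ^ B) ^ ((B : ℝ)⁻¹) :=
          (Real.pow_rpow_inv_natCast h2 (by omega)).symm
      _ ≤ X ^ ((B : ℝ)⁻¹) := Real.rpow_le_rpow (by positivity) h1 (by positivity)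
  have hinj : Set.InjOn (fun w : ℚ × ℚ => w.2 / w0.2) {w ∈ Pairs B X | w.1 * w.2 ^ B = z} := by
    rintro w ⟨hw, hwz⟩ w' ⟨hw', hwz'⟩ heq
    have h1 : w.2 = w'.2 := by
      simp only at heq
      rwa [div_left_inj' hy0] at heq
    have h2 : w.1 = w'.1 := by
      have : w.1 * w.2 ^ B = w'.1 * w.2 ^ B := by rw [hwz, ← hwz', h1]
      exact mul_right_cancel₀ (pow_ne_zero _ hw.2.1) this
    exact Prod.ext h2 h1
  have h3 := Set.ncard_le_ncard_of_injOn _ hmaps hinj (card_H hT).1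
  calc ({w ∈ Pairs B X | w.1 * w.2 ^ B = z}.ncard : ℝ)
      ≤ ({r : ℚ | H r ≤ X ^ ((B : ℝ)⁻¹)}.ncard : ℝ) := by exact_mod_cast h3
    _ ≤ 3 * (X ^ ((B : ℝ)⁻¹)) ^ 2 := (card_H hT).2
    _ = 3 * X ^ (2 / B : ℝ) := by
      rw [← Real.rpow_natCast, ← Real.rpow_mul (by linarith)]
      congr 2
      push_cast
      field_simp

lemma num_den_div {a b : ℕ} (hb : 0 < b) (hc : Nat.Coprime a b) :
    ((a : ℚ) / b).num = a ∧ ((a : ℚ) / b).den = b := by
  have h1 := Rat.num_div_eq_of_coprime (a := (a : ℤ)) (b := (b : ℤ)) (by exact_mod_cast hb)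
    (by simpa using hc)
  have h2 := Rat.den_div_eq_of_coprime (a := (a : ℤ)) (b := (b : ℤ)) (by exact_mod_cast hb)
    (by simpa using hc)
  rw [Int.cast_natCast, Int.cast_natCast] at h1 h2
  exact ⟨h1, Nat.cast_injective h2⟩

/-- many pairs -/
lemma pairs_low (B : ℕ) {X : ℝ} (hX : 1 ≤ X) :
    X ^ (2 / 3 : ℝ) / 32 - 1 ≤ (Pairs B X).ncard := by
  classical
  rcases lt_or_ge X 2 with hX2 | hX2
  · have h1 : X ^ (2 / 3 : ℝ) ≤ X ^ (1 : ℝ) :=
      Real.rpow_le_rpow_of_exponent_le hX (by norm_num)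
    rw [Real.rpow_one] at h1
    have h2 : (0 : ℝ) ≤ (Pairs B X).ncard := Nat.cast_nonneg _
    linarith
  set Y : ℝ := (X / 2) ^ (1 / 3 : ℝ) with hY
  set N : ℕ := ⌊Y⌋₊ with hN
  have hX0 : 0 < X := by linarith
  have hY1 : 1 ≤ Y := Real.one_le_rpow (by linarith) (by norm_num)
  have hY3 : Y ^ 3 = X / 2 := by
    rw [hY, ← Real.rpow_natCast, ← Real.rpow_mul (by linarith)]
    norm_num
  have hNY : (N : ℝ) ≤ Y := Nat.floor_le (by linarith)
  have hN1 : 1 ≤ N := Nat.le_floor (by exact_mod_cast hY1)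
  have hN1' : (1 : ℝ) ≤ N := by exact_mod_cast hN1
  have hYN : Y ≤ 2 * N := by
    have := Nat.lt_floor_add_one Y
    rw [← hN] at this
    linarith
  set P := ((Finset.Icc 1 N ×ˢ Finset.Icc 1 N).filter fun t : ℕ × ℕ => Nat.Coprime t.1 t.2) with hP
  have hmaps : ∀ t ∈ ((P.erase (1, 1) : Finset (ℕ × ℕ)) : Set (ℕ × ℕ)),
      ((t.1 : ℚ) / t.2, (1 : ℚ)) ∈ Pairs B X := by
    intro t ht
    rw [Finset.mem_coe, Finset.mem_erase, hP, Finset.mem_filter, Finset.mem_product,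
      Finset.mem_Icc, Finset.mem_Icc] at ht
    obtain ⟨hne, ⟨⟨ha1, ha2⟩, hb1, hb2⟩, hc⟩ := ht
    have ha2' : (t.1 : ℝ) ≤ Y := le_trans (by exact_mod_cast ha2) hNY
    have hb2' : (t.2 : ℝ) ≤ Y := le_trans (by exact_mod_cast hb2) hNY
    have haq : (0 : ℚ) < t.1 := by exact_mod_cast ha1
    have hbq : (0 : ℚ) < t.2 := by exact_mod_cast hb1
    obtain ⟨hnum, hden⟩ := num_den_div (show 0 < t.2 from hb1) hc
    have hnum1 : ((t.1 : ℚ) / t.2 + 1).num = ((t.1 + t.2 : ℕ) : ℤ) := by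
      rw [(num_den_add_one _).1, hnum, hden]; push_cast; ring
    have hH1 : H 1 = 1 := by simp [H]
    have hHx : H ((t.1 : ℚ) / t.2) ≤ Y := by
      apply H_le
      · rw [hnum]; simpa using ha2'
      · rw [hden]; exact hb2'
    refine ⟨(div_pos haq hbq).ne', one_ne_zero, ?_, ?_, ?_⟩
    · simp only [one_pow, mul_one]
      intro h
      rw [div_eq_one_iff_eq hbq.ne'] at h
      have h' : t.1 = t.2 := by exact_mod_cast h
      have h1 : t.1 = 1 := by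
        rw [← h'] at hc
        exact (Nat.coprime_self _).1 hc
      exact hne (Prod.ext h1 (by rw [← h', h1]))
    · simp only [one_pow, mul_one]
      have := div_pos haq hbq
      intro h
      linarith
    · simp only [S, one_pow, mul_one]
      rw [hH1, hnum1, Int.natAbs_natCast]
      have h1 : ((∏ p ∈ (t.1 + t.2).primeFactors, p : ℕ) : ℝ) ≤ 2 * Y := by
        calc ((∏ p ∈ (t.1 + t.2).primeFactors, p : ℕ) : ℝ) ≤ ((t.1 + t.2 : ℕ) : ℝ) := by
              exact_mod_cast Nat.le_of_dvd (by omega) (Nat.prod_primeFactors_dvd _)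
          _ ≤ 2 * Y := by push_cast; linarith
      have h2 : 0 ≤ H ((t.1 : ℚ) / t.2) := zero_le_one.trans (one_le_H _)
      calc H ((t.1 : ℚ) / t.2) ^ 2 * 1 ^ 2 * ((∏ p ∈ (t.1 + t.2).primeFactors, p : ℕ) : ℝ)
          ≤ Y ^ 2 * (2 * Y) := by
            rw [one_pow, mul_one]
            exact mul_le_mul (pow_le_pow_left₀ h2 hHx 2) h1 (Nat.cast_nonneg _) (by positivity)
        _ = 2 * Y ^ 3 := by ring
        _ = X := by rw [hY3]; ring
  have hinj : Set.InjOn (fun t : ℕ × ℕ => ((t.1 : ℚ) / t.2, (1 : ℚ)))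
      ((P.erase (1, 1) : Finset (ℕ × ℕ)) : Set (ℕ × ℕ)) := by
    intro t ht t' ht' heq
    rw [Finset.mem_coe, Finset.mem_erase, hP, Finset.mem_filter, Finset.mem_product,
      Finset.mem_Icc, Finset.mem_Icc] at ht ht'
    have e := congrArg Prod.fst heq
    simp only at e
    obtain ⟨n1, d1⟩ := num_den_div (show 0 < t.2 from ht.2.1.2.1) ht.2.2
    obtain ⟨n2, d2⟩ := num_den_div (show 0 < t'.2 from ht'.2.1.2.1) ht'.2.2
    refine Prod.ext ?_ ?_
    · have : (t.1 : ℤ) = t'.1 := by rw [← n1, ← n2, e]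
      exact_mod_cast this
    · rw [← d1, ← d2, e]
  have h1 := Set.ncard_le_ncard_of_injOn _ hmaps hinj (pairs_finite B hX)
  rw [Set.ncard_coe_finset] at h1
  have h1' : P.card - 1 ≤ (Pairs B X).ncard := le_trans Finset.pred_card_le_card_erase h1
  have h1r : (P.card : ℝ) - 1 ≤ (Pairs B X).ncard := by
    have : P.card ≤ (Pairs B X).ncard + 1 := by omega
    have : (P.card : ℝ) ≤ (Pairs B X).ncard + 1 := by exact_mod_cast this
    linarith
  have h2 := Pool.SHA.low_pairs N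
  have h3 : X ^ (2 / 3 : ℝ) / 32 ≤ (N : ℝ) ^ 2 / 4 := by
    have h4 : (Y : ℝ) ^ 2 = (X / 2) ^ (2 / 3 : ℝ) := by
      rw [hY, ← Real.rpow_natCast, ← Real.rpow_mul (by linarith)]
      norm_num
    have h5 : X ^ (2 / 3 : ℝ) ≤ 2 * (X / 2) ^ (2 / 3 : ℝ) := by
      rw [Real.div_rpow hX0.le (by norm_num)]
      have h6 : (2 : ℝ) ^ (2 / 3 : ℝ) ≤ 2 := by
        calc (2 : ℝ) ^ (2 / 3 : ℝ) ≤ 2 ^ (1 : ℝ) :=
              Real.rpow_le_rpow_of_exponent_le (by norm_num) (by norm_num)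
          _ = 2 := Real.rpow_one 2
      have h7 : 0 < (2 : ℝ) ^ (2 / 3 : ℝ) := by positivity
      have h8 : 0 ≤ X ^ (2 / 3 : ℝ) := Real.rpow_nonneg hX0.le _
      rw [← mul_div_assoc, le_div_iff₀ h7]
      nlinarith
    have h9 : Y ^ 2 ≤ 4 * (N : ℝ) ^ 2 := by nlinarith
    rw [h4] at h9
    linarith
  linarith

/-- Theorem X in the terms of Q1 -/
theorem phx (h : Pool.EXC.S_XFI) : S_PHX := by
  classical
  intro α ε δ hα hε hδ
  obtain ⟨κ0, C0, hX0⟩ := h (δ / 2) (by linarith)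
  set κ := max κ0 0 with hκ
  have hκ0 : 0 ≤ κ := le_max_right _ _
  obtain ⟨B₀, hB₀⟩ := exists_nat_ge (1 + 2 * κ / α + 2 * κ / ε + 4 / δ)
  refine ⟨B₀, fun B hBB => ⟨9 * max C0 0, fun X hX => ⟨pairs_finite B hX, pairs_low B hX, ?_⟩⟩⟩
  have hBr : 1 + 2 * κ / α + 2 * κ / ε + 4 / δ ≤ (B : ℝ) := hB₀.trans (by exact_mod_cast hBB)
  have q1 : 0 ≤ 2 * κ / α := by positivity
  have q2 : 0 ≤ 2 * κ / ε := by positivity
  have q3 : 0 ≤ 4 / δ := by positivity
  have hB1r : (1 : ℝ) ≤ B := by linarith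
  have hB1 : 1 ≤ B := by exact_mod_cast hB1r
  have hαB : 2 * κ ≤ α * B := by
    have : 2 * κ / α ≤ B := by linarith
    rw [div_le_iff₀ hα] at this; linarith
  have hεB : 2 * κ ≤ ε * B := by
    have : 2 * κ / ε ≤ B := by linarith
    rw [div_le_iff₀ hε] at this; linarith
  have hδB : (2 : ℝ) / B ≤ δ / 2 := by
    have : 4 / δ ≤ B := by linarith
    rw [div_le_iff₀ hδ] at this
    rw [div_le_iff₀ (by linarith)]
    linarith
  obtain ⟨hfin, hcard⟩ := hX0 X hX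
  have hsub : Pool.VIO.Exc κ X ⊆ Pool.VIO.Exc κ0 X := by
    rintro t ⟨ht, h1⟩
    refine ⟨ht, lt_of_le_of_lt ?_ h1⟩
    apply Real.rpow_le_rpow_of_exponent_le
    · have : 0 < ∏ p ∈ (t.1 * t.2 * (t.1 + t.2)).primeFactors, p :=
        Finset.prod_pos fun p hp => (Nat.prime_of_mem_primeFactors hp).pos
      exact_mod_cast this
    · exact le_max_left _ _
  have hfin' := hfin.subset hsub
  set E := hfin'.toFinset with hE
  have hEc : (E.card : ℝ) ≤ C0 * X ^ (1 / 3 + δ / 2) := by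
    refine le_trans ?_ hcard
    rw [hE, ← Set.ncard_eq_toFinset_card _ hfin']
    exact_mod_cast Set.ncard_le_ncard hsub hfin
  set Z : Finset ℚ := (E.image fun t : ℕ × ℕ => (t.1 : ℚ) / t.2) ∪
    ((E.image fun t : ℕ × ℕ => -(((t.1 + t.2 : ℕ) : ℚ) / t.2)) ∪
      (E.image fun t : ℕ × ℕ => -((t.2 : ℚ) / ((t.1 + t.2 : ℕ) : ℚ)))) with hZ
  have hZc : Z.card ≤ 3 * E.card := by
    calc Z.card ≤ (E.image fun t : ℕ × ℕ => (t.1 : ℚ) / t.2).card +
          ((E.image fun t : ℕ × ℕ => -(((t.1 + t.2 : ℕ) : ℚ) / t.2)) ∪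
          (E.image fun t : ℕ × ℕ => -((t.2 : ℚ) / ((t.1 + t.2 : ℕ) : ℚ)))).card :=
          Finset.card_union_le _ _
      _ ≤ E.card + (E.card + E.card) := by
          refine Nat.add_le_add Finset.card_image_le ?_
          exact (Finset.card_union_le _ _).trans
            (Nat.add_le_add Finset.card_image_le Finset.card_image_le)
      _ = 3 * E.card := by ring
  have hfib : ∀ z : ℚ, {w ∈ Pairs B X | w.1 * w.2 ^ B = z}.Finite := fun z =>
    (pairs_finite B hX).subset fun w hw => hw.1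
  have hcov : {w ∈ Pairs B X | ¬ Phil B α 0 ε w.1 w.2} ⊆
      ((Z.biUnion fun z => (hfib z).toFinset : Finset (ℚ × ℚ)) : Set (ℚ × ℚ)) := by
    rintro w ⟨hw, hf⟩
    obtain ⟨t, ht, h1⟩ := fail_exc hκ0 hB1 hαB hεB hε hw hf
    have htE : t ∈ E := by rw [hE, Set.Finite.mem_toFinset]; exact ht
    rw [Finset.mem_coe, Finset.mem_biUnion]
    refine ⟨w.1 * w.2 ^ B, ?_, ?_⟩
    · rw [hZ, Finset.mem_union, Finset.mem_union, Finset.mem_image, Finset.mem_image,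
        Finset.mem_image]
      rcases h1 with h1 | h1 | h1
      · exact Or.inl ⟨t, htE, h1.symm⟩
      · exact Or.inr (Or.inl ⟨t, htE, h1.symm⟩)
      · exact Or.inr (Or.inr ⟨t, htE, h1.symm⟩)
    · rw [Set.Finite.mem_toFinset]
      exact ⟨hw, rfl⟩
  have h1 := Set.ncard_le_ncard hcov (Finset.finite_toSet _)
  rw [Set.ncard_coe_finset] at h1
  have hXX : (0 : ℝ) < X := by linarith
  have hC : 0 ≤ max C0 0 := le_max_right _ _
  calc ({w ∈ Pairs B X | ¬ Phil B α 0 ε w.1 w.2}.ncard : ℝ)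
      ≤ ((Z.biUnion fun z => (hfib z).toFinset).card : ℝ) := by exact_mod_cast h1
    _ ≤ ∑ z ∈ Z, ((hfib z).toFinset.card : ℝ) := by exact_mod_cast Finset.card_biUnion_le
    _ ≤ ∑ z ∈ Z, 3 * X ^ (2 / B : ℝ) := by
        refine Finset.sum_le_sum fun z _ => ?_
        rw [← Set.ncard_eq_toFinset_card _ (hfib z)]
        exact fibre hB1 hX z
    _ = (Z.card : ℝ) * (3 * X ^ (2 / B : ℝ)) := by rw [Finset.sum_const, nsmul_eq_mul]
    _ ≤ (3 * (max C0 0 * X ^ (1 / 3 + δ / 2))) * (3 * X ^ (δ / 2)) := by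
        have hz1 : (Z.card : ℝ) ≤ 3 * (max C0 0 * X ^ (1 / 3 + δ / 2)) := by
          calc (Z.card : ℝ) ≤ 3 * (E.card : ℝ) := by exact_mod_cast hZc
            _ ≤ 3 * (C0 * X ^ (1 / 3 + δ / 2)) := by linarith
            _ ≤ _ := by
              have : C0 * X ^ (1 / 3 + δ / 2) ≤ max C0 0 * X ^ (1 / 3 + δ / 2) :=
                mul_le_mul_of_nonneg_right (le_max_left _ _) (Real.rpow_nonneg hXX.le _)
              linarith
        have hz2 : X ^ (2 / B : ℝ) ≤ X ^ (δ / 2) :=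
          Real.rpow_le_rpow_of_exponent_le hX hδB
        exact mul_le_mul hz1 (by linarith) (by positivity) (by positivity)
    _ = 9 * max C0 0 * (X ^ (1 / 3 + δ / 2) * X ^ (δ / 2)) := by ring
    _ = 9 * max C0 0 * X ^ (1 / 3 + δ) := by
        rw [← Real.rpow_add hXX]
        congr 2
        ring

end Pool.Agent.H21.PHX
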